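import Pool.Agent.H79.DO.Stmts

set_option autoImplicit false

/-!
# Project DO, module WF: the language in terms of the decoded data
-/

namespace Pool.Agent.H91.DO

open Pool.Agent.H83 N68a2faeb N487b59b3 TMLib Pool.Agent.H79.DO
open Pool.Agent.H74.PPAD (num addB mulB ltB strip unblk unblks decP decL num_nat_bits)

lemma getD_ofFn {α : Type} {n : ℕ} (F : Fin n → α) (s : ℕ) (h : s < n) (d : α) :
    (List.ofFn F).getD s d = F ⟨s, h⟩ := by
  rw [List.getD_eq_getElem _ _ (by simpa using h)]
  simp

/-- The decoded data of a table. -/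
def mkB {n m k : ℕ} (en : Fin n → Fin m → Bool) (f : Fin n → Fin m → Fin k → Fin n → ℕ × ℕ)
    (g h : Fin n → ℕ × ℕ) : BData :=
  (List.ofFn fun s => List.ofFn fun a => (en s a, List.ofFn fun l => List.ofFn fun t =>
      toF (f s a l t)),
    (List.ofFn fun s => toF (g s), List.ofFn fun s => toF (h s)))

lemma toB_mkData {n m k : ℕ} (en : Fin n → Fin m → Bool)
    (f : Fin n → Fin m → Fin k → Fin n → ℕ × ℕ) (g h : Fin n → ℕ × ℕ) :
    toB (mkData en f g h) = mkB en f g h := by
  simp [toB, mkData, mkB, List.map_ofFn, Function.comp_def]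

lemma ofF_toF (p : ℕ × ℕ) : ofF (toF p) = p := by
  simp [ofF, toF, num_nat_bits]

section

variable {n m k : ℕ} (en : Fin n → Fin m → Bool) (f : Fin n → Fin m → Fin k → Fin n → ℕ × ℕ)
  (g h : Fin n → ℕ × ℕ)

lemma nB_mkB : nB (mkB en f g h) = n := by simp [nB, mkB]

lemma row_mkB {s : ℕ} (hs : s < n) : (mkB en f g h).1.getD s [] =
    List.ofFn fun a => (en ⟨s, hs⟩ a, List.ofFn fun l => List.ofFn fun t =>
      toF (f ⟨s, hs⟩ a l t)) := by
  unfold mkB
  exact getD_ofFn _ s hs _

lemma act_mkB {s a : ℕ} (hs : s < n) (ha : a < m) :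
    ((mkB en f g h).1.getD s []).getD a (false, []) =
      (en ⟨s, hs⟩ ⟨a, ha⟩, List.ofFn fun l => List.ofFn fun t =>
        toF (f ⟨s, hs⟩ ⟨a, ha⟩ l t)) := by
  rw [row_mkB en f g h hs]
  exact getD_ofFn _ a ha _

lemma lab_mkB {s a l : ℕ} (hs : s < n) (ha : a < m) (hl : l < k) :
    ((((mkB en f g h).1.getD s []).getD a (false, [])).2.getD l []) =
      List.ofFn fun t => toF (f ⟨s, hs⟩ ⟨a, ha⟩ ⟨l, hl⟩ t) := by
  rw [act_mkB en f g h hs ha]
  exact getD_ofFn _ l hl _

lemma frB_mkB {s a l t : ℕ} (hs : s < n) (ha : a < m) (hl : l < k) (ht : t < n) :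
    frB (mkB en f g h) s a l t = toF (f ⟨s, hs⟩ ⟨a, ha⟩ ⟨l, hl⟩ ⟨t, ht⟩) := by
  unfold frB
  rw [lab_mkB en f g h hs ha hl]
  exact getD_ofFn _ t ht _

lemma enB_mkB {s a : ℕ} (hs : s < n) (ha : a < m) :
    enB (mkB en f g h) s a = en ⟨s, hs⟩ ⟨a, ha⟩ := by
  unfold enB
  rw [act_mkB en f g h hs ha]

lemma mB_mkB (hn : 0 < n) : mB (mkB en f g h) = m := by
  unfold mB
  rw [row_mkB en f g h hn]
  simp

lemma kB_mkB (hn : 0 < n) (hm : 0 < m) : kB (mkB en f g h) = k := by
  unfold kB
  rw [act_mkB en f g h hn hm]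
  simp

lemma rect_mkB (hn : 0 < n) (hm : 0 < m) : Rect (mkB en f g h) := by
  unfold Rect
  rw [nB_mkB, mB_mkB en f g h hn, kB_mkB en f g h hn hm]
  refine ⟨fun s hs => ⟨?_, fun a ha => ⟨?_, fun l hl => ?_⟩⟩, ?_, ?_⟩
  · rw [row_mkB en f g h hs]; simp
  · rw [act_mkB en f g h hs ha]; simp
  · rw [lab_mkB en f g h hs ha hl]; simp
  · simp [mkB]
  · simp [mkB]

end

/-- Transport of yes-instances. -/
lemma yes_of (I : Inst) {n m k : ℕ} (hn : n = I.n) (hm : m = I.m) (hk : k = I.k)
    (M : LMDP (Fin n) (Fin m) (Fin k)) (μ ν : Fin n → ℚ)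
    (h1 : IsDist (fun s => (μ s : ℝ))) (h2 : IsDist (fun s => (ν s : ℝ)))
    (en : ∀ (s : Fin n) (a : Fin m), a ∈ M.enabled s ↔ I.en s a = true)
    (prob : ∀ (s : Fin n), ∀ a ∈ M.enabled s, ∀ (l : Fin k) (t : Fin n),
      IsFrac (I.fn s a l t, I.fd s a l t) (M.prob s a (l, t)))
    (mu : ∀ s : Fin n, IsFrac (I.gn s, I.gd s) (μ s))
    (nu : ∀ s : Fin n, IsFrac (I.hn s, I.hd s) (ν s))
    (hd : HasDistanceOne M μ ν) : I.Yes := by
  subst hn hm hk
  exact ⟨M, μ, ν, h1, h2, ⟨en, prob, mu, nu⟩, hd⟩

lemma pos_of_isDist {n : ℕ} {μ : Fin n → ℝ} (h : IsDist μ) : 0 < n := by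
  rcases Nat.eq_zero_or_pos n with rfl | h'
  · exact absurd h.sum_one (by simp)
  · exact h'

lemma ofB_eq (b : BData) (hR : Rect b) (en : Fin (nB b) → Fin (mB b) → Bool)
    (hen : ∀ s a, en s a = enB b s a) :
    ofB b = mkData en (fun s a (l : Fin (kB b)) t => ofF (frB b s a l t))
      (fun s => ofF (b.2.1.getD s ([], []))) (fun s => ofF (b.2.2.getD s ([], []))) := by
  obtain ⟨hR1, hR2, hR3⟩ := hR
  unfold ofB mkData
  refine Prod.ext ?_ (Prod.ext ?_ ?_)
  · refine List.ext_getElem (by rw [List.length_map, List.length_ofFn]; rfl) ?_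
    intro s hs _
    have hs' : s < nB b := by rw [List.length_map] at hs; exact hs
    have hs0 : s < b.1.length := hs'
    have e1 : b.1[s] = b.1.getD s [] := (List.getD_eq_getElem _ _ hs0).symm
    simp only [List.getElem_map, List.getElem_ofFn]
    rw [e1]
    refine List.ext_getElem (by rw [List.length_map, List.length_ofFn]; exact (hR1 s hs').1) ?_
    intro a ha _
    have ha0 : a < (b.1.getD s []).length := by rw [List.length_map] at ha; exact ha
    have ha' : a < mB b := by rw [(hR1 s hs').1] at ha0; exact ha0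
    have e2 : (b.1.getD s [])[a] = (b.1.getD s []).getD a (false, []) :=
      (List.getD_eq_getElem _ _ ha0).symm
    simp only [List.getElem_map, List.getElem_ofFn]
    rw [e2]
    refine Prod.ext ?_ ?_
    · exact (hen ⟨s, hs'⟩ ⟨a, ha'⟩).symm
    · refine List.ext_getElem
        (by rw [List.length_map, List.length_ofFn]; exact ((hR1 s hs').2 a ha').1) ?_
      intro l hl _
      have hl0 : l < ((b.1.getD s []).getD a (false, [])).2.length := by
        rw [List.length_map] at hl; exact hl
      have hl' : l < kB b := by rw [((hR1 s hs').2 a ha').1] at hl0; exact hl0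
      have e3 : ((b.1.getD s []).getD a (false, [])).2[l] =
          ((b.1.getD s []).getD a (false, [])).2.getD l [] :=
        (List.getD_eq_getElem _ _ hl0).symm
      simp only [List.getElem_map, List.getElem_ofFn]
      rw [e3]
      refine List.ext_getElem
        (by rw [List.length_map, List.length_ofFn]; exact ((hR1 s hs').2 a ha').2 l hl') ?_
      intro t ht _
      have ht0 : t < (((b.1.getD s []).getD a (false, [])).2.getD l []).length := by
        rw [List.length_map] at ht; exact ht
      simp only [List.getElem_map, List.getElem_ofFn]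
      congr 1
      unfold frB
      exact (List.getD_eq_getElem _ _ ht0).symm
  · refine List.ext_getElem (by rw [List.length_map, List.length_ofFn]; exact hR2) ?_
    intro s hs _
    have hs0 : s < b.2.1.length := by rw [List.length_map] at hs; exact hs
    simp only [List.getElem_map, List.getElem_ofFn]
    rw [List.getD_eq_getElem _ _ hs0]
  · refine List.ext_getElem (by rw [List.length_map, List.length_ofFn]; exact hR3) ?_
    intro s hs _
    have hs0 : s < b.2.2.length := by rw [List.length_map] at hs; exact hs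
    simp only [List.getElem_map, List.getElem_ofFn]
    rw [List.getD_eq_getElem _ _ hs0]

/-- Module WF. -/
theorem wf (hD : DEC) : WF := by
  classical
  obtain ⟨-, -, hdec, henc, hof⟩ := hD
  intro x
  constructor
  · intro hx
    unfold distanceOne at hx
    rw [decide_eq_true_eq] at hx
    obtain ⟨n, m, k, M, μ, ν, h1, h2, ⟨f, g, h, hf, hg, hh, hx⟩, hd⟩ := hx
    have hn : 0 < n := pos_of_isDist h1
    have hm : 0 < m := by
      obtain ⟨a, -⟩ := M.enabled_nonempty ⟨0, hn⟩
      exact a.pos
    set en : Fin n → Fin m → Bool := fun s a => decide (a ∈ M.enabled s) with hen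
    have hb : dec x = mkB en f g h := by rw [hx, hdec, toB_mkData]
    refine ⟨?_, ?_, ?_⟩
    · rw [henc, hx, hdec, hof]
    · rw [hb]
      exact rect_mkB en f g h hn hm
    · rw [hb]
      refine yes_of _ (nB_mkB en f g h).symm (mB_mkB en f g h hn).symm
        (kB_mkB en f g h hn hm).symm M μ ν h1 h2 ?_ ?_ ?_ ?_ hd
      · intro s a
        have := enB_mkB en f g h s.2 a.2
        change _ ↔ enB (mkB en f g h) s a = true
        rw [this]
        simp [hen]
      · intro s a ha l t
        have := frB_mkB en f g h s.2 a.2 l.2 t.2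
        change IsFrac (num (frB (mkB en f g h) s a l t).1, num (frB (mkB en f g h) s a l t).2) _
        rw [this]
        have h3 := hf s a ha l t
        simpa [toF, num_nat_bits] using h3
      · intro s
        have : (mkB en f g h).2.1.getD s ([], []) = toF (g s) := getD_ofFn _ s s.2 _
        change IsFrac (num ((mkB en f g h).2.1.getD s ([], [])).1,
          num ((mkB en f g h).2.1.getD s ([], [])).2) _
        rw [this]
        have h3 := hg s
        simpa [toF, num_nat_bits] using h3
      · intro s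
        have : (mkB en f g h).2.2.getD s ([], []) = toF (h s) := getD_ofFn _ s s.2 _
        change IsFrac (num ((mkB en f g h).2.2.getD s ([], [])).1,
          num ((mkB en f g h).2.2.getD s ([], [])).2) _
        rw [this]
        have h3 := hh s
        simpa [toF, num_nat_bits] using h3
  · rintro ⟨hx, hR, M, μ, ν, h1, h2, hI, hd⟩
    unfold distanceOne
    rw [decide_eq_true_eq]
    refine ⟨nB (dec x), mB (dec x), kB (dec x), M, μ, ν, h1, h2,
      ⟨fun s a l t => ofF (frB (dec x) s a l t),
      fun s => ofF ((dec x).2.1.getD s ([], [])), fun s => ofF ((dec x).2.2.getD s ([], [])),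
      hI.prob, hI.mu, hI.nu, ?_⟩, hd⟩
    have key := ofB_eq (dec x) hR (fun s a => decide (a ∈ M.enabled s)) (fun s a => by
      rw [Bool.eq_iff_iff, decide_eq_true_eq]
      exact hI.en s a)
    have h3 : x = bitEncode (ofB (dec x)) := by rw [← henc, hx]
    refine h3.trans (congrArg bitEncode (key.trans ?_))
    congr 1 <;> (funext s a; try exact Bool.decide_congr Iff.rfl)

end Pool.Agent.H91.DO
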